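import Pool.Agent.MP_fcd29e_an.H11.CS

/-! The harmonic extension of a negative power of an affine function on the circle. -/

set_option autoImplicit false

open Complex Filter Topology Pool.Agent.MP_fcd29e_an.H11

namespace Pool.Agent.MP_fcd29e_an.H48

/-- The statement for the exponent `j`. -/
def Ext (j : ℕ) : Prop := ∃ h : ℂ × ℂ × ℂ → ℂ, ∀ (A : ℝ) (β : ℂ), ‖β‖ < A → ∀ s : ℂ, ‖s‖ ≤ 1 →
  AnalyticAt ℂ h ((A : ℂ), ((‖β‖ ^ 2 : ℝ) : ℂ), β * s) ∧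
  (‖s‖ = 1 → (h ((A : ℂ), ((‖β‖ ^ 2 : ℝ) : ℂ), β * s)).re = ((A - (β * s).re) ^ j)⁻¹)

theorem re_lt {A : ℝ} {β s : ℂ} (h : ‖β‖ < A) (hs : ‖s‖ ≤ 1) : (β * s).re < A :=
  (re_le_norm _).trans_lt (lt_of_le_of_lt
    (by rw [norm_mul]; exact mul_le_of_le_one_right (norm_nonneg _) hs) h)

theorem ext_one : Ext 1 := by
  refine ⟨fun q => (q.1 + (q.1 ^ 2 - q.2.1) ^ ((1 / 2 : ℝ) : ℂ) + q.2.2) /
    ((q.1 ^ 2 - q.2.1) ^ ((1 / 2 : ℝ) : ℂ) * (q.1 + (q.1 ^ 2 - q.2.1) ^ ((1 / 2 : ℝ) : ℂ) - q.2.2)),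
    fun A β hA s hs => ?_⟩
  have hx := re_lt hA hs
  have hA0 : 0 < A := (norm_nonneg _).trans_lt hA
  have hm : 0 < A ^ 2 - ‖β‖ ^ 2 := by nlinarith [norm_nonneg β]
  obtain ⟨d, hd⟩ : ∃ d, d = √(A ^ 2 - ‖β‖ ^ 2) := ⟨_, rfl⟩
  have hd0 : 0 < d := hd ▸ Real.sqrt_pos.2 hm
  have hdd : d * d = A ^ 2 - ‖β‖ ^ 2 := hd ▸ Real.mul_self_sqrt hm.le
  have e0 : (A : ℂ) ^ 2 - ((‖β‖ ^ 2 : ℝ) : ℂ) = ((A ^ 2 - ‖β‖ ^ 2 : ℝ) : ℂ) := by
    rw [ofReal_sub, ofReal_pow A]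
  have e1 : ((A : ℂ) ^ 2 - ((‖β‖ ^ 2 : ℝ) : ℂ)) ^ ((1 / 2 : ℝ) : ℂ) = d := by
    rw [e0, ← ofReal_cpow hm.le, hd, Real.sqrt_eq_rpow]
  constructor
  · have a1 : AnalyticAt ℂ (fun q : ℂ × ℂ × ℂ => q.1) ((A : ℂ), ((‖β‖ ^ 2 : ℝ) : ℂ), β * s) :=
      analyticAt_fst
    have a2 : AnalyticAt ℂ (fun q : ℂ × ℂ × ℂ => q.2.1) ((A : ℂ), ((‖β‖ ^ 2 : ℝ) : ℂ), β * s) :=
      analyticAt_fst.comp analyticAt_snd
    have a3 : AnalyticAt ℂ (fun q : ℂ × ℂ × ℂ => q.2.2) ((A : ℂ), ((‖β‖ ^ 2 : ℝ) : ℂ), β * s) :=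
      analyticAt_snd.comp analyticAt_snd
    have a4 : AnalyticAt ℂ (fun q : ℂ × ℂ × ℂ => (q.1 ^ 2 - q.2.1) ^ ((1 / 2 : ℝ) : ℂ))
        ((A : ℂ), ((‖β‖ ^ 2 : ℝ) : ℂ), β * s) :=
      ((a1.pow 2).sub a2).cpow analyticAt_const (by
        change (A : ℂ) ^ 2 - ((‖β‖ ^ 2 : ℝ) : ℂ) ∈ slitPlane
        rw [e0]
        exact ofReal_mem_slitPlane.2 hm)
    refine ((a1.add a4).add a3).div (a4.mul ((a1.add a4).sub a3)) ?_
    change ((A : ℂ) ^ 2 - ((‖β‖ ^ 2 : ℝ) : ℂ)) ^ ((1 / 2 : ℝ) : ℂ) *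
      ((A : ℂ) + ((A : ℂ) ^ 2 - ((‖β‖ ^ 2 : ℝ) : ℂ)) ^ ((1 / 2 : ℝ) : ℂ) - β * s) ≠ 0
    rw [e1]
    refine mul_ne_zero (ofReal_ne_zero.2 hd0.ne') fun h => ?_
    have h1 := congrArg re h
    rw [sub_re, add_re, ofReal_re, ofReal_re, zero_re] at h1
    linarith
  · intro h1
    dsimp only
    rw [e1]
    have h2 : (β * s).re * (β * s).re + (β * s).im * (β * s).im = ‖β‖ ^ 2 := by
      rw [← normSq_apply, ← Complex.sq_norm, norm_mul, h1, mul_one]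
    generalize β * s = w at hx h2
    have h3 : normSq ((d : ℂ) * (A + d - w)) = d * d * (2 * (A + d)) * (A - w.re) := by
      simp only [normSq_apply, mul_re, mul_im, sub_re, sub_im, add_re, add_im, ofReal_re, ofReal_im]
      linear_combination (d * d) * h2 + (d * d) * hdd
    have h4 : 0 < A - w.re := sub_pos.2 hx
    rw [div_re, h3, ← add_div, pow_one, div_eq_iff (by positivity),
      inv_mul_eq_div, mul_div_assoc, div_self h4.ne']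
    simp only [mul_re, mul_im, sub_re, sub_im, add_re, add_im, ofReal_re, ofReal_im]
    linear_combination (-d) * h2 - d * hdd

theorem ext_succ {j : ℕ} (hj : j ≠ 0) (h : Ext j) : Ext (j + 1) := by
  obtain ⟨h, hh⟩ := h
  refine ⟨fun q => ((-(j : ℝ)⁻¹ : ℝ) : ℂ) * fderiv ℂ h q (1, 0, 0), fun A β hA s hs => ?_⟩
  have ha := (hh A β hA s hs).1
  refine ⟨analyticAt_const.mul
    (((ContinuousLinearMap.apply ℂ ℂ ((1, 0, 0) : ℂ × ℂ × ℂ)).analyticAt _).comp ha.fderiv),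
    fun h1 => ?_⟩
  have h4 : 0 < A - (β * s).re := sub_pos.2 (re_lt hA hs)
  have d1 : HasDerivAt (fun z : ℂ => h (z, ((‖β‖ ^ 2 : ℝ) : ℂ), β * s))
      (fderiv ℂ h ((A : ℂ), ((‖β‖ ^ 2 : ℝ) : ℂ), β * s) (1, 0, 0)) (A : ℂ) :=
    ha.differentiableAt.hasFDerivAt.comp_hasDerivAt (A : ℂ)
      ((hasDerivAt_id (A : ℂ)).prodMk (hasDerivAt_const _ _))
  have d2 := (((hasDerivAt_id A).sub_const (β * s).re).fun_pow j).fun_inv (pow_ne_zero j h4.ne')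
  have d3 := d1.real_of_complex.unique (d2.congr_of_eventuallyEq
    ((lt_mem_nhds hA).mono fun a ha => (hh a β ha s hs).2 h1))
  have hj' : (j : ℝ) ≠ 0 := Nat.cast_ne_zero.2 hj
  obtain ⟨i, rfl⟩ := Nat.exists_eq_succ_of_ne_zero hj
  dsimp only
  rw [re_ofReal_mul, d3]
  simp only [id, Nat.succ_eq_add_one, Nat.add_sub_cancel] at hj' ⊢
  have h5 := h4.ne'
  generalize A - (β * s).re = y at h5
  generalize ((i + 1 : ℕ) : ℝ) = c at hj'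
  field_simp
  ring

theorem sc1 : SC1 := by
  have h : ∀ j, Ext (j + 1) := fun j => by
    induction j with
    | zero => exact ext_one
    | succ j ih => exact ext_succ j.succ_ne_zero ih
  exact h 19

end Pool.Agent.MP_fcd29e_an.H48
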